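import Mathlib
import Pool.Agent.H418R3.WarpMain
import Pool.Agent.H418R3.WarpSanity

/-!
# The warping span of links is bounded (it is at most 1/2)

Question Q2: is the warping span `warp(L) = min_D warp(D)` unbounded on links?  Answer: no, every
link `L` has `warp(L) ≤ 1/2`.

Idea.  A planar diagram has a checkerboard colouring, hence its projection carries an alternating
assignment of over- and under-passages, for which the weights of the edges are `0` and `1`.  At a
crossing where the diagram disagrees with this assignment, let `a` be the over-strand and `b` the
under-strand, and make a Reidemeister II move in the corner between the outgoing half of `a` and the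
incoming half of `b`, with `b` on top.  Now `a` passes over, under, under and `b` passes over, over,
under: the total effect on the weights is the one of the alternating assignment, and the
weights in between stay in `{0, 1, 2}`.

Definitions (file `Pool.Agent.H418R3.WarpDefs`, `WarpCorner`, `WarpMain`): a diagram is a
combinatorial map on the darts `(x, j)`, `j : ZMod 4`, of its crossings; planarity is Euler's
formula.
-/

namespace Pool.Agent.Results.MP_89478c_gt.WarpingSpanBounded

open Pool.Agent.H418R3

/-- **Every link has warping span at most `1/2`.**  Every oriented link diagram `L` on the sphere can
be changed by finitely many Reidemeister II moves (each made in a corner of a crossing) into a link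
diagram `L'` on the sphere, hence a diagram of the same link, with `warp(L') ≤ 1/2`. -/
theorem result (L : LinkDiagram) :
    ∃ L' : LinkDiagram, Relation.ReflTransGen LinkDiagram.R2Step L L' ∧ L'.warp ≤ 1 / 2 :=
  L.warp_le_half

end Pool.Agent.Results.MP_89478c_gt.WarpingSpanBounded
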